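import Pool.Agent.N641.VB.Stm2

set_option autoImplicit false

/-!
# Project VB (helper641), leaf VB/MEA (helper568)

Types are measurable.
-/

namespace Pool.Agent.N568.VB.Mea

open Pool.Agent.N641.VB

lemma dif_gen {A : Type} [BooleanAlgebra A] (a b c : A) :
    (b ≤ a ∧ c ≤ a ∧ (∀ d, d ≤ b → d ≤ c → ∀ e, d ≤ e) ∧ ∀ d, b ≤ d → c ≤ d → a ≤ d) ↔
      b ≤ a ∧ c = a \ b := by
  constructor
  · rintro ⟨h1, h2, h3, h4⟩
    refine ⟨h1, le_antisymm ?_ ?_⟩
    · rw [le_sdiff]
      refine ⟨h2, ?_⟩
      rw [disjoint_iff_inf_le]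
      exact h3 (c ⊓ b) inf_le_right inf_le_left ⊥
    · rw [sdiff_le_iff]
      exact h4 (b ⊔ c) le_sup_left le_sup_right
  · rintro ⟨h1, rfl⟩
    refine ⟨h1, sdiff_le, ?_, ?_⟩
    · intro d h2 h3 e
      have h4 : Disjoint b (a \ b) := disjoint_sdiff_self_right
      exact (h4 h2 h3).trans bot_le
    · intro d h2 h3
      have h4 : b ⊔ a \ b = a := sup_sdiff_cancel_right h1
      rw [← h4]
      exact sup_le h2 h3

lemma bot_gen {A : Type} [BooleanAlgebra A] (a : A) : (∀ b, a ≤ b) ↔ a = ⊥ := by
  constructor
  · intro h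
    exact le_bot_iff.1 (h ⊥)
  · rintro rfl b
    exact bot_le

theorem first {M : Type} (bo : BooleanAlgebra ℕ) (mu : ℕ → M) :
    ∀ k a : ℕ, tpc bo.le mu k a = @tp M ℕ bo mu k a
  | 0, a => propext (@bot_gen ℕ bo a)
  | k + 1, a => by
    refine Prod.ext rfl ?_
    ext q
    constructor
    · rintro ⟨b, c, h, rfl⟩
      obtain ⟨h1, h2⟩ := (@dif_gen ℕ bo a b c).1 h
      refine ⟨b, h1, ?_⟩
      rw [first bo mu k b, first bo mu k c, h2]
    · rintro ⟨b, h1, rfl⟩
      refine ⟨b, _, (@dif_gen ℕ bo a b _).2 ⟨h1, rfl⟩, ?_⟩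
      rw [first bo mu k b, first bo mu k _]

theorem fin_tp {M : Type} [Finite M] : ∀ k : ℕ, Finite (TP M k)
  | 0 => inferInstanceAs (Finite Prop)
  | k + 1 => by
    have := fin_tp (M := M) k
    exact inferInstanceAs (Finite (M × Set (TP M k × TP M k)))

theorem MEA : S_MEA := by
  intro M _
  refine ⟨fun bo mu k a => first bo mu k a, ?_⟩
  intro Y _ le mu hle hmu
  have mle : ∀ a b, Measurable fun y => le y a b := fun a b => measurableSet_setOfPred.1 (hle a b)
  have mmu : ∀ a v, Measurable fun y => mu y a = v := fun a v => measurableSet_setOfPred.1 (hmu a v)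
  have mdif : ∀ a b c, Measurable fun y => Dif (le y) a b c := by
    intro a b c
    unfold Dif
    exact (mle b a).and ((mle c a).and ((Measurable.forall fun d => ((mle d b).imp
      ((mle d c).imp (Measurable.forall fun e => mle d e)))).and
      (Measurable.forall fun d => (mle b d).imp ((mle c d).imp (mle a d)))))
  have main : ∀ (k a : ℕ) (σ : TP M k), Measurable fun y => tpc (le y) (mu y) k a = σ := by
    intro k
    induction k with
    | zero =>
      intro a σ
      have h1 : Measurable fun y => ∀ b, le y a b := Measurable.forall fun b => mle a b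
      have hp : ∀ s : Prop, Measurable fun y => ((∀ b, le y a b : Prop) = s) := by
        intro s
        by_cases hs : s
        · have h2 : (fun y => ((∀ b, le y a b : Prop) = s)) = fun y => ∀ b, le y a b := by
            funext y
            exact propext ⟨fun h => by rw [h]; exact hs, fun h => propext ⟨fun _ => hs, fun _ => h⟩⟩
          rw [h2]
          exact h1
        · have h2 : (fun y => ((∀ b, le y a b : Prop) = s)) = fun y => ¬ ∀ b, le y a b := by
            funext y
            exact propext ⟨fun h => by rw [h]; exact hs,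
              fun h => propext ⟨fun h' => absurd h' h, fun h' => absurd h' hs⟩⟩
          rw [h2]
          exact h1.not
      exact hp σ
    | succ k ih =>
      intro a σ
      have : Finite (TP M k) := fin_tp k
      have h2 : (fun y => tpc (le y) (mu y) (k + 1) a = σ) = fun y => mu y a = σ.1 ∧
          ∀ q : TP M k × TP M k, ((∃ b c, Dif (le y) a b c ∧ tpc (le y) (mu y) k b = q.1 ∧
            tpc (le y) (mu y) k c = q.2) ↔ q ∈ σ.2) := by
        funext y
        refine propext ⟨?_, ?_⟩
        · rintro rfl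
          refine ⟨rfl, fun q => ⟨?_, ?_⟩⟩
          · rintro ⟨b, c, h3, h4, h5⟩
            exact ⟨b, c, h3, Prod.ext h4.symm h5.symm⟩
          · rintro ⟨b, c, h3, rfl⟩
            exact ⟨b, c, h3, rfl, rfl⟩
        · rintro ⟨h3, h4⟩
          refine Prod.ext h3 ?_
          ext q
          rw [← h4 q]
          constructor
          · rintro ⟨b, c, h5, rfl⟩
            exact ⟨b, c, h5, rfl, rfl⟩
          · rintro ⟨b, c, h5, h6, h7⟩
            exact ⟨b, c, h5, Prod.ext h6.symm h7.symm⟩
      rw [h2]
      refine (mmu a σ.1).and (Measurable.forall fun q => ?_)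
      have h3 : Measurable fun y => ∃ b c, Dif (le y) a b c ∧ tpc (le y) (mu y) k b = q.1 ∧
          tpc (le y) (mu y) k c = q.2 :=
        Measurable.exists fun b => Measurable.exists fun c =>
          (mdif a b c).and ((ih b q.1).and (ih c q.2))
      exact h3.iff measurable_const
  intro k a σ
  exact measurableSet_setOfPred.2 (main k a σ)

end Pool.Agent.N568.VB.Mea
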