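import Pool.Agent.N641.VB.Stm

set_option autoImplicit false

/-!
# Project VB (helper641), leaf VB/TAU (helper568)

Types in the algebra of almost prescribed functions.
-/

namespace Pool.Agent.N568.VB

open Pool.Agent.N641.VB

section basic

variable {M : Type} [AddCommMonoid M]

/-- the value at level `0` -/
def zz (t : FT M) : Prop := t 0

lemma zz_add (u v : FT M) : zz (u + v) ↔ zz u ∧ zz v := Iff.rfl

lemma zz_zero : zz (0 : FT M) := trivial

lemma zz_ft {A : Type} [BooleanAlgebra A] (mu : A → M) (a : A) : zz (ft mu a) ↔ a = ⊥ := Iff.rfl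

lemma eq_zero_of_zz {t : FT M} (h : Rl t) (hz : zz t) : t = 0 := by
  obtain ⟨A, _, mu, a, hm, rfl⟩ := h
  rw [zz_ft] at hz
  rw [hz]
  exact ft_bot hm

lemma rl_zero {t : FT M} (h : Rl t) : Rl (0 : FT M) := by
  obtain ⟨A, i, mu, a, hm, -⟩ := h
  exact ⟨A, i, mu, ⊥, hm, ft_bot hm⟩

lemma rl_ft {A : Type} [BooleanAlgebra A] {mu : A → M} (hm : AM mu) (a : A) : Rl (ft mu a) :=
  ⟨A, _, mu, a, hm, rfl⟩

lemma dv_self {t : FT M} (h : Rl t) : t ∈ Dv t := ⟨h, 0, rl_zero h, add_zero t⟩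

lemma dv_zero {u : FT M} (h : u ∈ Dv (0 : FT M)) : u = 0 := by
  obtain ⟨h1, v, h2, h3⟩ := h
  refine eq_zero_of_zz h1 ?_
  have h4 : zz (u + v) := by rw [h3]; exact zz_zero
  exact h4.1

lemma dv_ft {A : Type} [BooleanAlgebra A] {mu : A → M} (hm : AM mu) {a b : A} (h : b ≤ a) :
    ft mu b ∈ Dv (ft mu a) :=
  ⟨rl_ft hm b, ft mu (a \ b), rl_ft hm _, by
    rw [← ft_sup hm b (a \ b) disjoint_sdiff_self_right, sup_sdiff_cancel_right h]⟩

lemma dv_trans (RADD : S_RADD) {u t : FT M} (h : u ∈ Dv t) : Dv u ⊆ Dv t := by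
  rintro w ⟨h1, v, h2, h3⟩
  obtain ⟨-, v', h4, h5⟩ := h
  refine ⟨h1, v + v', RADD M v v' h2 h4, ?_⟩
  rw [← add_assoc, h3, h5]

lemma dv_fin_add (REF : S_REF) [Finite M] {u v : FT M} (hu : Rl u) (hv : Rl v)
    (fu : (Dv u).Finite) (fv : (Dv v).Finite) : (Dv (u + v)).Finite := by
  refine (fu.image2 (fun a b => a + b) fv).subset ?_
  rintro w ⟨h1, x, h2, h3⟩
  obtain ⟨p1, p2, q1, q2, a1, a2, a3, a4, b1, b2, b3, b4⟩ := REF M w x u v h1 h2 hu hv h3
  exact ⟨p1, ⟨a1, q1, a3, b3⟩, p2, ⟨a2, q2, a4, b4⟩, b1⟩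

variable {e : FT M}

lemma de_add (RADD : S_RADD) (G : Good e) {u v : FT M} (hu : u ∈ Dv e) (hv : v ∈ Dv e) :
    u + v ∈ Dv e := by
  obtain ⟨h1, u', h2, h3⟩ := hu
  obtain ⟨h4, v', h5, h6⟩ := hv
  refine ⟨RADD M u v h1 h4, u' + v', RADD M u' v' h2 h5, ?_⟩
  rw [add_add_add_comm, h3, h6, G.idem]

lemma de_zero (G : Good e) : (0 : FT M) ∈ Dv e := ⟨rl_zero G.rl, e, G.rl, zero_add e⟩

lemma de_e (G : Good e) : e ∈ Dv e := dv_self G.rl

lemma inf_add (RADD : S_RADD) (G : Good e) {f : FT M} (hf : Rl f) : (Dv (f + e)).Infinite := by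
  refine G.inf.mono ?_
  rintro w ⟨h1, v, h2, h3⟩
  refine ⟨h1, v + f, RADD M v f h2 hf, ?_⟩
  rw [← add_assoc, h3, add_comm]

lemma not_zz_e (G : Good e) : ¬ zz e := by
  intro h
  have h0 := eq_zero_of_zz G.rl h
  have h1 := G.inf
  rw [h0] at h1
  exact h1 ((Set.finite_singleton (0 : FT M)).subset (fun u hu => dv_zero hu))

lemma cancel (RADD : S_RADD) (G : Good e) {u v w : FT M} (hu : u ∈ Dv e) (hv : v ∈ Dv e)
    (hw : w ∈ Dv e) (iv : (Dv v).Infinite) (iw : (Dv w).Infinite) (h : u + v = u + w) :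
    v = w := by
  obtain ⟨w', -, -, h1⟩ :=
    (G.grp (u + e) (de_add RADD G hu (de_e G)) (inf_add RADD G hu.1)).2
  have h2 := (G.grp v hv iv).1
  have h3 := (G.grp w hw iw).1
  calc v = v + ((u + e) + w') := by rw [h1, h2]
    _ = (u + v) + (e + w') := by abel
    _ = (u + w) + (e + w') := by rw [h]
    _ = w + ((u + e) + w') := by abel
    _ = w := by rw [h1, h3]

variable {ι : Type}

lemma rl_sum (RADD : S_RADD) {t : FT M} (ht : Rl t) (K : Finset ι) (a : ι → FT M)
    (ha : ∀ i, Rl (a i)) : Rl (∑ i ∈ K, a i) := by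
  classical
  induction K using Finset.induction_on with
  | empty =>
    rw [Finset.sum_empty]
    exact rl_zero ht
  | insert j s hj ih =>
    rw [Finset.sum_insert hj]
    exact RADD M _ _ (ha j) ih

lemma zz_sum (K : Finset ι) (f : ι → FT M) : zz (∑ i ∈ K, f i) ↔ ∀ i ∈ K, zz (f i) := by
  classical
  induction K using Finset.induction_on with
  | empty =>
    rw [Finset.sum_empty]
    exact ⟨fun _ i hi => absurd hi (Finset.notMem_empty i), fun _ => zz_zero⟩
  | insert j s hj ih =>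
    rw [Finset.sum_insert hj, zz_add, ih]
    constructor
    · rintro ⟨h1, h2⟩ i hi
      rcases Finset.mem_insert.1 hi with rfl | hi'
      · exact h1
      · exact h2 i hi'
    · intro h
      exact ⟨h j (Finset.mem_insert_self j s), fun i hi => h i (Finset.mem_insert_of_mem hi)⟩

lemma split_sum (RADD : S_RADD) (REF : S_REF) [Finite M] (K : Finset ι) (a : ι → FT M)
    (ha : ∀ i, Rl (a i)) : ∀ u v : FT M, Rl u → Rl v → u + v = ∑ i ∈ K, a i →
    ∃ u' v' : ι → FT M, (∀ i ∈ K, Rl (u' i) ∧ Rl (v' i) ∧ u' i + v' i = a i) ∧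
      ∑ i ∈ K, u' i = u ∧ ∑ i ∈ K, v' i = v := by
  classical
  induction K using Finset.induction_on with
  | empty =>
    intro u v hu hv h
    rw [Finset.sum_empty] at h
    have h1 : zz (u + v) := by rw [h]; exact zz_zero
    refine ⟨fun _ => 0, fun _ => 0, fun i hi => absurd hi (Finset.notMem_empty i), ?_, ?_⟩
    · rw [Finset.sum_empty]
      exact (eq_zero_of_zz hu h1.1).symm
    · rw [Finset.sum_empty]
      exact (eq_zero_of_zz hv h1.2).symm
  | insert j s hj ih =>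
    intro u v hu hv h
    rw [Finset.sum_insert hj] at h
    have hs : Rl (∑ i ∈ s, a i) := rl_sum RADD hu s a ha
    obtain ⟨p1, p2, q1, q2, a1, a2, a3, a4, b1, b2, b3, b4⟩ :=
      REF M u v (a j) _ hu hv (ha j) hs h
    obtain ⟨u', v', c1, c2, c3⟩ := ih p2 q2 a2 a4 b4
    have hne : ∀ i ∈ s, i ≠ j := by
      rintro i hi rfl
      exact hj hi
    refine ⟨Function.update u' j p1, Function.update v' j q1, ?_, ?_, ?_⟩
    · intro i hi
      rcases Finset.mem_insert.1 hi with rfl | hi'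
      · rw [Function.update_self, Function.update_self]
        exact ⟨a1, a3, b3⟩
      · rw [Function.update_of_ne (hne i hi'), Function.update_of_ne (hne i hi')]
        exact c1 i hi'
    · have h5 : ∑ i ∈ s, Function.update u' j p1 i = ∑ i ∈ s, u' i :=
        Finset.sum_congr rfl fun i hi => Function.update_of_ne (hne i hi) _ _
      rw [Finset.sum_insert hj, Function.update_self, h5, c2, b1]
    · have h5 : ∑ i ∈ s, Function.update v' j q1 i = ∑ i ∈ s, v' i :=
        Finset.sum_congr rfl fun i hi => Function.update_of_ne (hne i hi) _ _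
      rw [Finset.sum_insert hj, Function.update_self, h5, c3, b2]

end basic

/-- the hypotheses -/
structure Ctx {M : Type} [AddCommMonoid M] (e : FT M) {ι : Type} {P : ι → Type}
    [∀ i, BooleanAlgebra (P i)] (nu : ∀ i, P i → M) {B : Type} [BooleanAlgebra B] (r : B → Set ι)
    {A : Type} [BooleanAlgebra A] (val : A → ∀ i, P i) (π : A → B) : Prop where
  good : Good e
  hr1 : ∀ b c, r (b ⊔ c) = r b ∪ r c
  hr2 : ∀ b, r bᶜ = (r b)ᶜ
  hnu : ∀ i, AM (nu i)
  hdv : ∀ i, ft (nu i) ⊤ ∈ Dv e ∧ (Dv (ft (nu i) ⊤)).Finite ∧ ft (nu i) ⊤ + e = e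
  hinf : ∀ b, b ≠ ⊥ → ∀ f ∈ Dv e, (Dv f).Finite → f + e = e → f ≠ 0 →
    {i | i ∈ r b ∧ ft (nu i) ⊤ = f}.Infinite
  F : FAlg P r val π
  RADD : S_RADD
  REF : S_REF
  FIN : S_FIN

section main

variable {M : Type} [AddCommMonoid M] {e : FT M} {ι : Type} {P : ι → Type}
    [∀ i, BooleanAlgebra (P i)] {nu : ∀ i, P i → M} {B : Type} [BooleanAlgebra B] {r : B → Set ι}
    {A : Type} [BooleanAlgebra A] {val : A → ∀ i, P i} {π : A → B}

open Classical in
/-- the part at infinity -/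
noncomputable def eps (e : FT M) (π : A → B) (x : A) : FT M := if π x = ⊥ then 0 else e

/-- the exceptional set -/
def exs (r : B → Set ι) (val : A → ∀ i, P i) (π : A → B) (x : A) : Set ι :=
  {i | i ∈ r (π x) ∧ val x i ≠ ⊤} ∪ {i | i ∉ r (π x) ∧ val x i ≠ ⊥}

/-- the sum over a finite set -/
noncomputable def SS (e : FT M) (nu : ∀ i, P i → M) (val : A → ∀ i, P i) (π : A → B)
    (K : Finset ι) (x : A) : FT M := ∑ i ∈ K, ft (nu i) (val x i) + eps e π x

lemma Ctx.ex_fin (C : Ctx e nu r val π) (x : A) : (exs r val π x).Finite :=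
  (C.F.on x).union (C.F.off x)

/-- the type -/
noncomputable def Ctx.tau (C : Ctx e nu r val π) (x : A) : FT M :=
  SS e nu val π (C.ex_fin x).toFinset x

lemma Ctx.r_top (C : Ctx e nu r val π) : r ⊤ = Set.univ := by
  have h := C.hr1 ⊥ ⊥ᶜ
  rw [C.hr2, Set.union_compl_self, sup_compl_eq_top] at h
  exact h

lemma Ctx.r_bot (C : Ctx e nu r val π) : r ⊥ = ∅ := by
  have h := C.hr2 ⊤
  rw [compl_top, C.r_top, Set.compl_univ] at h
  exact h

lemma Ctx.absorb1 (C : Ctx e nu r val π) {x : A} {i : ι} (hi : i ∉ exs r val π x) :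
    ft (nu i) (val x i) + eps e π x = eps e π x := by
  have h1 : i ∈ r (π x) → val x i = ⊤ := by
    intro h
    by_contra h'
    exact hi (Or.inl ⟨h, h'⟩)
  have h2 : i ∉ r (π x) → val x i = ⊥ := by
    intro h
    by_contra h'
    exact hi (Or.inr ⟨h, h'⟩)
  by_cases h : i ∈ r (π x)
  · rw [h1 h]
    have hx : π x ≠ ⊥ := by
      intro h3
      rw [h3, C.r_bot] at h
      exact h
    unfold eps
    rw [if_neg hx]
    exact (C.hdv i).2.2
  · rw [h2 h, ft_bot (C.hnu i), zero_add]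

lemma Ctx.absorb (C : Ctx e nu r val π) {x : A} (s : Finset ι) (hs : ∀ i ∈ s, i ∉ exs r val π x) :
    ∑ i ∈ s, ft (nu i) (val x i) + eps e π x = eps e π x := by
  classical
  induction s using Finset.induction_on with
  | empty => rw [Finset.sum_empty, zero_add]
  | insert a s ha ih =>
    rw [Finset.sum_insert ha, add_assoc, ih (fun i hi => hs i (Finset.mem_insert_of_mem hi)),
      C.absorb1 (hs a (Finset.mem_insert_self a s))]

lemma Ctx.tau_eq (C : Ctx e nu r val π) (x : A) (K : Finset ι) (hK : exs r val π x ⊆ K) :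
    C.tau x = SS e nu val π K x := by
  classical
  unfold Ctx.tau SS
  have h1 : (C.ex_fin x).toFinset ⊆ K := by
    intro i hi
    rw [Set.Finite.mem_toFinset] at hi
    exact hK hi
  have h2 := C.absorb (x := x) (K \ (C.ex_fin x).toFinset) (by
    intro i hi
    rw [Finset.mem_sdiff, Set.Finite.mem_toFinset] at hi
    exact hi.2)
  calc ∑ i ∈ (C.ex_fin x).toFinset, ft (nu i) (val x i) + eps e π x
      = ∑ i ∈ (C.ex_fin x).toFinset, ft (nu i) (val x i) +
        (∑ i ∈ K \ (C.ex_fin x).toFinset, ft (nu i) (val x i) + eps e π x) := by rw [h2]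
    _ = (∑ i ∈ K \ (C.ex_fin x).toFinset, ft (nu i) (val x i) +
        ∑ i ∈ (C.ex_fin x).toFinset, ft (nu i) (val x i)) + eps e π x := by abel
    _ = _ := by rw [Finset.sum_sdiff h1]

lemma Ctx.tau_sup (C : Ctx e nu r val π) (x y : A) (h : Disjoint x y) :
    C.tau (x ⊔ y) = C.tau x + C.tau y := by
  classical
  obtain ⟨K, hK⟩ : ∃ K : Finset ι, K = (C.ex_fin x).toFinset ∪ (C.ex_fin y).toFinset ∪
    (C.ex_fin (x ⊔ y)).toFinset := ⟨_, rfl⟩
  have k1 : exs r val π x ⊆ K := by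
    intro i hi
    rw [hK, Finset.mem_coe, Finset.mem_union, Finset.mem_union, Set.Finite.mem_toFinset]
    exact Or.inl (Or.inl hi)
  have k2 : exs r val π y ⊆ K := by
    intro i hi
    rw [hK, Finset.mem_coe, Finset.mem_union, Finset.mem_union, Set.Finite.mem_toFinset,
      Set.Finite.mem_toFinset]
    exact Or.inl (Or.inr hi)
  have k3 : exs r val π (x ⊔ y) ⊆ K := by
    intro i hi
    rw [hK, Finset.mem_coe, Finset.mem_union, Finset.mem_union, Set.Finite.mem_toFinset,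
      Set.Finite.mem_toFinset, Set.Finite.mem_toFinset]
    exact Or.inr hi
  rw [C.tau_eq x K k1, C.tau_eq y K k2, C.tau_eq (x ⊔ y) K k3]
  unfold SS
  have hv : ∀ i, Disjoint (val x i) (val y i) := by
    intro i
    have h1 : val x \ val y = val x := by rw [← C.F.sdiff, h.sdiff_eq_left]
    have h2 : val x i \ val y i = val x i := congrFun h1 i
    exact sdiff_eq_left.1 h2
  have hs : ∑ i ∈ K, ft (nu i) (val (x ⊔ y) i) =
      ∑ i ∈ K, ft (nu i) (val x i) + ∑ i ∈ K, ft (nu i) (val y i) := by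
    rw [← Finset.sum_add_distrib]
    refine Finset.sum_congr rfl fun i _ => ?_
    rw [C.F.sup, Pi.sup_apply, ft_sup (C.hnu i) _ _ (hv i)]
  have he : eps e π (x ⊔ y) = eps e π x + eps e π y := by
    unfold eps
    rw [C.F.psup]
    by_cases hx : π x = ⊥ <;> by_cases hy : π y = ⊥
    · rw [if_pos (by rw [hx, hy, sup_bot_eq]), if_pos hx, if_pos hy, add_zero]
    · rw [if_neg (by rw [hx, bot_sup_eq]; exact hy), if_pos hx, if_neg hy, zero_add]
    · rw [if_neg (by rw [hy, sup_bot_eq]; exact hx), if_neg hx, if_pos hy, add_zero]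
    · rw [if_neg (fun h => hx (sup_eq_bot_iff.1 h).1), if_neg hx, if_neg hy, C.good.idem]
  rw [hs, he]
  abel

lemma Ctx.g_mem (C : Ctx e nu r val π) (x : A) (i : ι) : ft (nu i) (val x i) ∈ Dv e :=
  dv_trans C.RADD (C.hdv i).1 (dv_ft (C.hnu i) le_top)

lemma Ctx.g_fin (C : Ctx e nu r val π) (x : A) (i : ι) : (Dv (ft (nu i) (val x i))).Finite :=
  (C.hdv i).2.1.subset (dv_trans C.RADD (dv_ft (C.hnu i) le_top))

lemma Ctx.sum_mem (C : Ctx e nu r val π) (x : A) (K : Finset ι) :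
    ∑ i ∈ K, ft (nu i) (val x i) ∈ Dv e := by
  classical
  induction K using Finset.induction_on with
  | empty =>
    rw [Finset.sum_empty]
    exact de_zero C.good
  | insert j s hj ih =>
    rw [Finset.sum_insert hj]
    exact de_add C.RADD C.good (C.g_mem x j) ih

lemma Ctx.sum_fin [Finite M] (C : Ctx e nu r val π) (x : A) (K : Finset ι) :
    (Dv (∑ i ∈ K, ft (nu i) (val x i))).Finite := by
  classical
  induction K using Finset.induction_on with
  | empty =>
    rw [Finset.sum_empty]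
    exact (Set.finite_singleton (0 : FT M)).subset (fun u hu => dv_zero hu)
  | insert j s hj ih =>
    rw [Finset.sum_insert hj]
    exact dv_fin_add C.REF (C.g_mem x j).1 (C.sum_mem x s).1 (C.g_fin x j) ih

lemma Ctx.tau_mem (C : Ctx e nu r val π) (x : A) : C.tau x ∈ Dv e := by
  unfold Ctx.tau SS
  refine de_add C.RADD C.good (C.sum_mem x _) ?_
  unfold eps
  split_ifs
  · exact de_zero C.good
  · exact de_e C.good

lemma Ctx.tau_fin [Finite M] (C : Ctx e nu r val π) {x : A} (hx : π x = ⊥) :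
    (Dv (C.tau x)).Finite := by
  unfold Ctx.tau SS eps
  rw [if_pos hx, add_zero]
  exact C.sum_fin x _

lemma Ctx.tau_inf (C : Ctx e nu r val π) {x : A} (hx : π x ≠ ⊥) :
    (Dv (C.tau x)).Infinite := by
  unfold Ctx.tau SS eps
  rw [if_neg hx]
  exact inf_add C.RADD C.good (C.sum_mem x _).1

lemma Ctx.off_bot (C : Ctx e nu r val π) {x : A} (hx : π x = ⊥) {i : ι}
    (hi : i ∉ exs r val π x) : val x i = ⊥ := by
  by_contra h
  refine hi (Or.inr ⟨?_, h⟩)
  rw [hx, C.r_bot]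
  exact Set.notMem_empty i

lemma Ctx.tau_zz (C : Ctx e nu r val π) (x : A) : zz (C.tau x) ↔ x = ⊥ := by
  by_cases hx : π x = ⊥
  · unfold Ctx.tau SS eps
    rw [if_pos hx, add_zero, zz_sum]
    constructor
    · intro h
      have hv : val x ≤ val ⊥ := by
        intro i
        have h5 : val x i = ⊥ := by
          by_cases hi : i ∈ exs r val π x
          · have h6 := h i ((C.ex_fin x).mem_toFinset.2 hi)
            rwa [zz_ft] at h6
          · exact C.off_bot hx hi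
        rw [h5]
        exact bot_le
      exact le_bot_iff.1 ((C.F.le x ⊥).2 hv)
    · rintro rfl i _
      rw [zz_ft, C.F.bot]
      rfl
  · constructor
    · intro h
      exfalso
      unfold Ctx.tau SS eps at h
      rw [if_neg hx, zz_add] at h
      exact not_zz_e C.good h.2
    · rintro rfl
      exact absurd C.F.pbot hx

lemma Ctx.tau_of (C : Ctx e nu r val π) (K : Finset ι) {y : A} (hy : π y = ⊥)
    (h : ∀ i, i ∉ K → val y i = ⊥) : C.tau y = ∑ i ∈ K, ft (nu i) (val y i) := by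
  rw [C.tau_eq y K]
  · unfold SS eps
    rw [if_pos hy, add_zero]
  · intro i hi
    by_contra hK
    rcases hi with hi | hi
    · have h1 := hi.1
      rw [hy, C.r_bot] at h1
      exact h1
    · exact hi.2 (h i hK)

lemma Ctx.mk_elt (C : Ctx e nu r val π) (K : Finset ι) (z : ∀ i, P i)
    (hz : ∀ i, i ∉ K → z i = ⊥) :
    ∃ y, val y = z ∧ π y = ⊥ ∧ C.tau y = ∑ i ∈ K, ft (nu i) (z i) := by
  obtain ⟨y, h1, h2⟩ := C.F.surj ⊥ z
    (by
      refine Set.Finite.subset Set.finite_empty ?_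
      rintro i ⟨hi, -⟩
      rw [C.r_bot] at hi
      exact hi)
    (by
      refine K.finite_toSet.subset ?_
      rintro i ⟨-, hi⟩
      by_contra hK
      exact hi (hz i hK))
  refine ⟨y, h1, h2, ?_⟩
  rw [C.tau_of K h2 (fun i hi => by rw [h1]; exact hz i hi), h1]

lemma Ctx.split_bot [Finite M] (C : Ctx e nu r val π) {x : A} (hx : π x = ⊥) {u v : FT M}
    (hu : Rl u) (hv : Rl v) (h : u + v = C.tau x) :
    ∃ y ≤ x, C.tau y = u ∧ C.tau (x \ y) = v := by
  classical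
  obtain ⟨K, hK⟩ : ∃ K : Finset ι, K = (C.ex_fin x).toFinset := ⟨_, rfl⟩
  have hoff : ∀ i, i ∉ K → val x i = ⊥ := by
    intro i hi
    rw [hK, Set.Finite.mem_toFinset] at hi
    exact C.off_bot hx hi
  rw [C.tau_of K hx hoff] at h
  obtain ⟨u', v', h1, h2, h3⟩ := split_sum C.RADD C.REF K (fun i => ft (nu i) (val x i))
    (fun i => rl_ft (C.hnu i) _) u v hu hv h
  have h4 : ∀ i, ∃ z ≤ val x i, i ∈ K → ft (nu i) z = u' i ∧ ft (nu i) (val x i \ z) = v' i := by
    intro i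
    by_cases hi : i ∈ K
    · obtain ⟨z, hz, z1, z2⟩ := C.FIN M (P i) (nu i) (val x i) (u' i) (v' i) (C.hnu i)
        (C.g_fin x i) (h1 i hi).1 (h1 i hi).2.1 (h1 i hi).2.2
      exact ⟨z, hz, fun _ => ⟨z1, z2⟩⟩
    · exact ⟨⊥, bot_le, fun hi' => absurd hi' hi⟩
  choose z z1 z2 using h4
  obtain ⟨y, y1, y2, y3⟩ := C.mk_elt K z (by
    intro i hi
    have h5 := z1 i
    rw [hoff i hi] at h5
    exact le_bot_iff.1 h5)
  have hyx : y ≤ x := by
    rw [C.F.le, y1]
    exact z1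
  refine ⟨y, hyx, ?_, ?_⟩
  · rw [y3, ← h2]
    exact Finset.sum_congr rfl fun i hi => (z2 i hi).1
  · have e1 : π (x \ y) = ⊥ := by rw [C.F.psdiff, hx, bot_sdiff]
    have e2 : ∀ i, val (x \ y) i = val x i \ z i := by
      intro i
      rw [C.F.sdiff, y1]
      rfl
    rw [C.tau_of K e1 (fun i hi => by rw [e2, hoff i hi, bot_sdiff]), ← h3]
    refine Finset.sum_congr rfl fun i hi => ?_
    rw [e2]
    exact (z2 i hi).2

lemma Ctx.piece [Finite M] (C : Ctx e nu r val π) {x : A} (hx : π x ≠ ⊥) {u0 : FT M}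
    (h0 : u0 ∈ Dv e) (hf : (Dv u0).Finite) : ∃ y ≤ x, π y = ⊥ ∧ C.tau y = u0 := by
  classical
  by_cases hu0 : u0 = 0
  · refine ⟨⊥, bot_le, C.F.pbot, ?_⟩
    rw [C.tau_of ∅ C.F.pbot (fun i _ => by rw [C.F.bot]; rfl), Finset.sum_empty, hu0]
  have i1 := inf_add C.RADD C.good h0.1
  have m1 := de_add C.RADD C.good h0 (de_e C.good)
  obtain ⟨c', c1, c2, c3⟩ := (C.good.grp (u0 + e) m1 i1).2
  obtain ⟨u', u1, u2, u3, -⟩ := C.good.acc c' c1 c2 0
  have c4 := (C.good.grp c' c1 c2).1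
  obtain ⟨f, hfd⟩ : ∃ f, f = u0 + u' := ⟨_, rfl⟩
  have f1 : f ∈ Dv e := by rw [hfd]; exact de_add C.RADD C.good h0 u1
  have f2 : (Dv f).Finite := by rw [hfd]; exact dv_fin_add C.REF h0.1 u1.1 hf u2
  have f3 : f + e = e := by
    calc f + e = u0 + (u' + e) := by rw [hfd, add_assoc]
      _ = u0 + (c' + e) := by rw [u3, c4]
      _ = (u0 + e) + c' := by abel
      _ = e := c3
  have f4 : f ≠ 0 := by
    intro h
    refine hu0 (eq_zero_of_zz h0.1 ?_)
    have h5 : zz (u0 + u') := by rw [← hfd, h]; exact zz_zero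
    exact h5.1
  obtain ⟨i, hi, hi2⟩ := ((C.hinf (π x) hx f f1 f2 f3 f4).sdiff (C.ex_fin x)).nonempty
  obtain ⟨i3, i4⟩ := hi
  have i5 : val x i = ⊤ := by
    by_contra h
    exact hi2 (Or.inl ⟨i3, h⟩)
  obtain ⟨z, hz, z1, -⟩ := C.FIN M (P i) (nu i) ⊤ u0 u' (C.hnu i) (C.hdv i).2.1 h0.1 u1.1
    (by rw [i4, hfd])
  obtain ⟨y, y1, y2, y3⟩ := C.mk_elt {i} (Function.update (fun j => (⊥ : P j)) i z) (by
    intro j hj
    rw [Finset.mem_singleton] at hj
    rw [Function.update_of_ne hj])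
  refine ⟨y, ?_, y2, ?_⟩
  · rw [C.F.le, y1]
    intro j
    by_cases hj : j = i
    · subst hj
      rw [i5]
      exact le_top
    · rw [Function.update_of_ne hj]
      exact bot_le
  · rw [y3, Finset.sum_singleton, Function.update_self, z1]

lemma Ctx.split_fin [Finite M] (C : Ctx e nu r val π) {x : A} (hx : π x ≠ ⊥) {u v : FT M}
    (hu : u ∈ Dv e) (hv : v ∈ Dv e) (fu : (Dv u).Finite) (iv : (Dv v).Infinite)
    (h : u + v = C.tau x) :
    ∃ y ≤ x, C.tau y = u ∧ C.tau (x \ y) = v := by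
  obtain ⟨y, y1, y2, y3⟩ := C.piece hx hu fu
  refine ⟨y, y1, y3, ?_⟩
  have h1 : C.tau x = C.tau y + C.tau (x \ y) := by
    rw [← C.tau_sup y (x \ y) disjoint_sdiff_self_right, sup_sdiff_cancel_right y1]
  have h2 : π (x \ y) ≠ ⊥ := by
    rw [C.F.psdiff, y2, sdiff_bot]
    exact hx
  refine cancel C.RADD C.good hu (C.tau_mem _) hv (C.tau_inf h2) iv ?_
  rw [h, h1, y3]

lemma Ctx.split [Finite M] (C : Ctx e nu r val π) (x : A) (k : ℕ) (u v : FT M) (hu : Rl u)
    (hv : Rl v) (h : u + v = C.tau x) : ∃ y ≤ x, C.tau y k = u k ∧ C.tau (x \ y) k = v k := by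
  by_cases hx : π x = ⊥
  · obtain ⟨y, y1, y2, y3⟩ := C.split_bot hx hu hv h
    exact ⟨y, y1, by rw [y2], by rw [y3]⟩
  have mu : u ∈ Dv e := dv_trans C.RADD (C.tau_mem x) ⟨hu, v, hv, h⟩
  have mv : v ∈ Dv e := dv_trans C.RADD (C.tau_mem x) ⟨hv, u, hu, by rw [add_comm, h]⟩
  by_cases fu : (Dv u).Finite
  · have iv : (Dv v).Infinite := by
      intro fv
      have h1 := dv_fin_add C.REF hu hv fu fv
      rw [h] at h1
      exact C.tau_inf hx h1
    obtain ⟨y, y1, y2, y3⟩ := C.split_fin hx mu mv fu iv h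
    exact ⟨y, y1, by rw [y2], by rw [y3]⟩
  by_cases fv : (Dv v).Finite
  · obtain ⟨y, y1, y2, y3⟩ := C.split_fin hx mv mu fv fu (by rw [add_comm, h])
    refine ⟨x \ y, sdiff_le, by rw [y3], ?_⟩
    rw [sdiff_sdiff_right_self, inf_eq_right.2 y1, y2]
  obtain ⟨u', u1, u2, u3, u4⟩ := C.good.acc u mu fu k
  have v1 := (C.good.grp v mv fv).1
  have h5 : u' + v = C.tau x := by
    rw [← h, ← u3, add_assoc, add_comm e v, v1]
  obtain ⟨y, y1, y2, y3⟩ := C.split_fin hx u1 mv u2 fv h5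
  exact ⟨y, y1, by rw [y2, u4 k le_rfl], by rw [y3]⟩

lemma Ctx.tau_top (C : Ctx e nu r val π) (hB : (⊤ : B) ≠ ⊥) : C.tau ⊤ = e := by
  classical
  have h1 : val ⊤ = ⊤ := by
    obtain ⟨x, x1, -⟩ := C.F.surj ⊤ ⊤
      (by
        refine Set.Finite.subset Set.finite_empty ?_
        rintro i ⟨-, hi⟩
        exact absurd rfl hi)
      (by
        refine Set.Finite.subset Set.finite_empty ?_
        rintro i ⟨hi, -⟩
        rw [C.r_top] at hi
        exact absurd (Set.mem_univ i) hi)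
    have h2 : val x ≤ val ⊤ := (C.F.le x ⊤).1 le_top
    rw [x1] at h2
    exact top_le_iff.1 h2
  have h2 : exs r val π ⊤ ⊆ ((∅ : Finset ι) : Set ι) := by
    rintro i (hi | hi)
    · exfalso
      refine hi.2 ?_
      rw [h1]
      rfl
    · exfalso
      refine hi.1 ?_
      rw [C.F.ptop, C.r_top]
      exact Set.mem_univ i
  rw [C.tau_eq ⊤ ∅ h2]
  unfold SS eps
  rw [Finset.sum_empty, if_neg (by rw [C.F.ptop]; exact hB), zero_add]

end main

theorem TAU (TRN : S_TRN) (RADD : S_RADD) (REF : S_REF) (FIN : S_FIN) (IND : S_IND) : S_TAU := by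
  intro M _ _ e G ι _ P _ _ nu B _ _ r A _ val π hr1 hr2 hnu hdv hinf F
  have _h := TRN
  have C : Ctx e nu r val π := ⟨G, hr1, hr2, hnu, hdv, hinf, F, RADD, REF, FIN⟩
  obtain ⟨h1, h2⟩ := IND M A C.tau (fun x => (C.tau_mem x).1) (fun x => propext (C.tau_zz x))
    C.tau_sup C.split
  refine ⟨_, h1, ?_, ?_, ?_⟩
  · intro a ha
    rw [h2]
    exact C.tau_fin ha
  · intro a ha
    rw [h2]
    exact C.tau_inf ha
  · intro hB
    rw [h2]
    exact C.tau_top top_ne_bot

end Pool.Agent.N568.VB
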